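import Pool.Agent.Q87.RA.Final

/-!
# MP_ee701d_an: spherical partial Fourier sums after a random change of signs on annuli

Let `0 = r_0 ≤ r_1 ≤ r_2 ≤ ...` be radii which tend to infinity with gaps at most `L`, and let
`X_0, X_1, ...` be independent random complex numbers of modulus at most one and mean zero, for
example independent random signs. For `f` in `L²(ℝⁿ)` let `f^ω` be the function whose Fourier
transform is `X_k(ω) f^(ξ)` on the annulus `r_k ≤ |ξ| < r_{k+1}`. Then, for every `f`, every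
dimension and all balls `B` of radius `s`,

* the mean of `∫_B (sup_R |S_R f^ω|)²` is at most `C log(2 + s L)² ‖f‖²`, with `C = C(n)`
  independent of the radii, of the multipliers, of `f` and of `B`;
* almost surely, `S_R f^ω(x)` converges to `f^ω(x)` as `R → ∞`, for almost every `x`.

Here `R` runs over all positive real numbers. Proof: inside an annulus of width `w` the local
`L²` norm of a piece of width `δ` gains `√δ` (by Schur's test for the Gaussian kernel; this is the
uniform trace theorem for spheres), so that dyadic chaining in the radius costs only `log`; the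
partial sums over full annuli form a martingale, and Doob's inequality applies at every point.
-/

set_option autoImplicit false

open MeasureTheory ProbabilityTheory Filter Metric Topology
open scoped ENNReal RealInnerProductSpace FourierTransform

namespace Pool.Agent.Results.MP_ee701d_an.RandomAnnuli

universe u

section general

variable {V : Type*} [NormedAddCommGroup V] [InnerProductSpace ℝ V] [FiniteDimensional ℝ V]
  [MeasurableSpace V] [BorelSpace V]

/-- The spherical partial integral `S_R u`. -/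
noncomputable def S (R : ℝ) (u : Lp ℂ 2 (volume : Measure V)) (x : V) : ℂ :=
  ∫ ξ in closedBall (0 : V) R, Real.fourierChar ⟪x, ξ⟫ • (𝓕 u : Lp ℂ 2 (volume : Measure V)) ξ

/-- The maximal function `S^* u`, the supremum over all real `R > 0`. -/
noncomputable def maxS (u : Lp ℂ 2 (volume : Measure V)) (x : V) : ℝ≥0∞ :=
  ⨆ R : Set.Ioi (0 : ℝ), ‖S R u x‖ₑ

/-- Radii `0 = r_0 ≤ r_1 ≤ ...` which tend to infinity, with gaps at most `L`. -/
structure Radii (L : ℝ) where
  /-- the radii -/
  r : ℕ → ℝ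
  zero : r 0 = 0
  mono : Monotone r
  top : Tendsto r atTop atTop
  gap : ∀ k, r (k + 1) - r k ≤ L

/-- The annulus `r_k ≤ |ξ| < r_{k+1}`. -/
def annulus (V : Type*) [NormedAddCommGroup V] {L : ℝ} (ρ : Radii L) (k : ℕ) : Set V :=
  {ξ | ρ.r k ≤ ‖ξ‖ ∧ ‖ξ‖ < ρ.r (k + 1)}

/-- The closed unit disc. -/
abbrev Disc : Type := closedBall (0 : ℂ) 1

lemma radii {L : ℝ} (ρ : Radii L) : Q87.RA.Radii ρ.r L := ⟨ρ.zero, ρ.mono, ρ.top, ρ.gap⟩

lemma norm_disc (z : Disc) : ‖(z : ℂ)‖ ≤ 1 := by
  have := z.2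
  rwa [mem_closedBall_zero_iff] at this

/-- Multiplication by `c_k` on the `k`-th annulus, for every `k`. -/
noncomputable def onAnnuli {L : ℝ} (ρ : Radii L) (c : ℕ → Disc) (g : V → ℂ) (ξ : V) : ℂ :=
  ∑' k, (annulus V ρ k).indicator (fun ξ => (c k : ℂ) * g ξ) ξ

lemma onAnnuli_memLp {L : ℝ} (ρ : Radii L) (c : ℕ → Disc) (f : Lp ℂ 2 (volume : Measure V)) :
    MemLp (onAnnuli ρ c (𝓕 f : Lp ℂ 2 (volume : Measure V))) 2 :=
  Q87.RA.rnd_memLp (radii ρ) (fun k => (c k : ℂ)) (fun k => norm_disc (c k)) (Lp.memLp _)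

/-- The function whose Fourier transform is `c_k f^` on the `k`-th annulus, for every `k`. -/
noncomputable def multiplied {L : ℝ} (ρ : Radii L) (c : ℕ → Disc)
    (f : Lp ℂ 2 (volume : Measure V)) : Lp ℂ 2 (volume : Measure V) :=
  𝓕⁻ ((onAnnuli_memLp ρ c f).toLp _)

/-- Independent random elements `X_0, X_1, ...` of the closed unit disc, with mean zero. -/
structure Noise {Ω : Type u} [MeasurableSpace Ω] (P : Measure Ω) (X : ℕ → Ω → Disc) : Prop where
  measurable : ∀ k, Measurable (X k)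
  independent : iIndepFun X P
  centred : ∀ k, ∫ ω, (X k ω : ℂ) ∂P = 0

lemma noise {Ω : Type u} [MeasurableSpace Ω] {P : Measure Ω} {X : ℕ → Ω → Disc}
    (h : Noise P X) : Q87.RA.Noise P (fun k ω => (X k ω : ℂ)) where
  meas := fun k => measurable_subtype_coe.comp (h.measurable k)
  le := fun k ω => norm_disc (X k ω)
  ind := h.independent.comp (fun _ z => (z : ℂ)) fun _ => measurable_subtype_coe
  mean := h.centred

lemma S_eq [Nontrivial V] {L : ℝ} (ρ : Radii L) (c : ℕ → Disc) (f : Lp ℂ 2 (volume : Measure V))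
    (R : ℝ) (x : V) : S R (multiplied ρ c f) x =
      Q87.RA.pc (Q87.RA.rnd ρ.r (fun k => (c k : ℂ))
        ((𝓕 f : Lp ℂ 2 (volume : Measure V)) : V → ℂ)) 0 R x := by
  have h1 : (𝓕 (multiplied ρ c f) : Lp ℂ 2 (volume : Measure V)) =
      (onAnnuli_memLp ρ c f).toLp _ := by
    unfold multiplied
    exact FourierTransform.fourier_fourierInv_eq _
  unfold S Q87.RA.pc
  rw [h1]
  have h2 : (closedBall (0 : V) R : Set V) =ᵐ[volume] Q87.RA.An V 0 R := by
    have h3 : Q87.RA.An V 0 R = ball 0 R := by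
      ext ξ
      simp [Q87.RA.An]
    rw [h3]
    rcases lt_or_ge R 0 with hR | hR
    · rw [closedBall_eq_empty.2 hR, ball_eq_empty.2 hR.le]
    · rw [← sphere_union_ball]
      have h4 : (sphere (0 : V) R : Set V) =ᵐ[volume] (∅ : Set V) := by
        rw [ae_eq_empty]
        exact Measure.addHaar_sphere _ _ _
      have h5 := h4.union (ae_eq_refl (ball (0 : V) R : Set V))
      rwa [Set.empty_union] at h5
  rw [setIntegral_congr_set h2]
  refine integral_congr_ae (ae_restrict_of_ae ?_)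
  filter_upwards [(onAnnuli_memLp ρ c f).coeFn_toLp] with ξ hξ
  rw [hξ, Circle.smul_def, Real.fourierChar_apply, smul_eq_mul]
  unfold Pool.Agent.Q261.ST.ph
  have e : (2 * Real.pi * (⟪x, ξ⟫ - 0 * ‖ξ‖ ^ 2) : ℝ) = 2 * Real.pi * ⟪x, ξ⟫ := by ring
  rw [e]
  rfl

/-- The random function `f^ω`: its Fourier transform is `X_k(ω) f^` on the `k`-th annulus. -/
noncomputable def randomized {L : ℝ} {Ω : Type u} (ρ : Radii L) (X : ℕ → Ω → Disc)
    (f : Lp ℂ 2 (volume : Measure V)) (ω : Ω) : Lp ℂ 2 (volume : Measure V) :=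
  multiplied ρ (fun k => X k ω) f

/-- The integral of `(S^* u)²` over the ball around `x₀` of radius `s`. -/
noncomputable def energy (x₀ : V) (s : ℝ) (u : Lp ℂ 2 (volume : Measure V)) : ℝ≥0∞ :=
  ∫⁻ x in closedBall x₀ s, maxS u x ^ 2

/-- The spherical partial integrals `S_R u` converge to `u` almost everywhere as `R → ∞`. -/
def Converges (u : Lp ℂ 2 (volume : Measure V)) : Prop :=
  ∀ᵐ x : V, Tendsto (fun R => S R u x) atTop (𝓝 (u x))

end general

/-- `L²(ℝ^n)` -/
abbrev L2 (n : ℕ) : Type := Lp ℂ 2 (volume : Measure (EuclideanSpace ℝ (Fin n)))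

/-- The maximal inequality with the constant `C`. -/
def MaximalInequality (n : ℕ) (C : ℝ) : Prop :=
  ∀ (L : ℝ) (ρ : Radii L) (Ω : Type u) [MeasurableSpace Ω] (P : Measure Ω) [IsProbabilityMeasure P]
    (X : ℕ → Ω → Disc), Noise P X → ∀ (f : L2 n) (x₀ : EuclideanSpace ℝ (Fin n)) (s : ℝ), 0 < s →
      ∫⁻ ω, energy x₀ s (randomized ρ X f ω) ∂P ≤
        ENNReal.ofReal (C * Real.log (2 + s * L) ^ 2 * ‖f‖ ^ 2)

/-- Almost sure convergence almost everywhere, for every `f`. -/
def AlmostSure (n : ℕ) : Prop :=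
  ∀ (L : ℝ) (ρ : Radii L) (Ω : Type u) [MeasurableSpace Ω] (P : Measure Ω) [IsProbabilityMeasure P]
    (X : ℕ → Ω → Disc), Noise P X → ∀ f : L2 n, ∀ᵐ ω ∂P, Converges (randomized ρ X f ω)

theorem result (n : ℕ) (hn : 1 ≤ n) :
    (∃ C : ℝ, MaximalInequality.{u} n C) ∧ AlmostSure.{u} n := by
  have : Nonempty (Fin n) := ⟨⟨0, by omega⟩⟩
  have : Nontrivial (EuclideanSpace ℝ (Fin n)) := by
    have : Nontrivial (Fin n → ℝ) := Function.nontrivial
    exact (WithLp.equiv 2 (Fin n → ℝ)).nontrivial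
  refine ⟨⟨Real.exp Real.pi * (10 * Q87.RA.C1 (EuclideanSpace ℝ (Fin n))) * 81, ?_⟩, ?_⟩
  · intro L ρ Ω _ P _ X hX f x₀ s hs
    have hL : 0 ≤ L := by
      have h1 := ρ.gap 0
      have h2 := ρ.mono (Nat.zero_le 1)
      linarith
    obtain ⟨m, hm1, hm2⟩ := Q87.RA.exists_m (s * L) (by positivity)
    have h := Q87.RA.any_ball P (fun k ω => (X k ω : ℂ)) (noise hX) (radii ρ)
      (g := ((𝓕 f : L2 n) : EuclideanSpace ℝ (Fin n) → ℂ)) (Lp.stronglyMeasurable _) (Lp.memLp _)
      x₀ s hs m hm1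
    rw [Q89.MS.sq_norm f] at h
    calc ∫⁻ ω, energy x₀ s (randomized ρ X f ω) ∂P
        ≤ ∫⁻ ω, (∫⁻ x in closedBall x₀ s, Q87.RA.mf (Q87.RA.rnd ρ.r (fun k => (X k ω : ℂ))
            ((𝓕 f : L2 n) : EuclideanSpace ℝ (Fin n) → ℂ)) x ^ 2) ∂P := by
          refine lintegral_mono fun ω => lintegral_mono fun x => pow_le_pow_left₀ zero_le ?_ 2
          unfold maxS Q87.RA.mf
          refine iSup_le fun R => ?_
          unfold randomized
          rw [S_eq]
          exact le_iSup (fun R : ℝ => ‖Q87.RA.pc (Q87.RA.rnd ρ.r (fun k => (X k ω : ℂ))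
            ((𝓕 f : L2 n) : EuclideanSpace ℝ (Fin n) → ℂ)) 0 R x‖ₑ) R
      _ ≤ _ := h
      _ ≤ _ := by
          have hC := Q87.RA.C1_nonneg (V := EuclideanSpace ℝ (Fin n))
          have hE := Real.exp_pos Real.pi
          rw [← ENNReal.ofReal_mul (by positivity)]
          apply ENNReal.ofReal_le_ofReal
          refine mul_le_mul_of_nonneg_right ?_ (by positivity)
          have h3 : ((m : ℝ) + 4) ^ 2 ≤ (9 * Real.log (2 + s * L)) ^ 2 :=
            pow_le_pow_left₀ (by positivity) hm2 2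
          calc Real.exp Real.pi * (10 * Q87.RA.C1 (EuclideanSpace ℝ (Fin n)) * ((m : ℝ) + 4) ^ 2)
              = Real.exp Real.pi * (10 * Q87.RA.C1 (EuclideanSpace ℝ (Fin n))) *
                ((m : ℝ) + 4) ^ 2 := by ring
            _ ≤ Real.exp Real.pi * (10 * Q87.RA.C1 (EuclideanSpace ℝ (Fin n))) *
                (9 * Real.log (2 + s * L)) ^ 2 := by
                gcongr
            _ = _ := by ring
  · intro L ρ Ω _ P _ X hX f
    have h := Q87.RA.conv_ae P (fun k ω => (X k ω : ℂ)) (noise hX) (radii ρ)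
      (g := ((𝓕 f : L2 n) : EuclideanSpace ℝ (Fin n) → ℂ)) (Lp.memLp _)
    filter_upwards [h] with ω hω
    filter_upwards [hω, Q89.MS.limit_eq (randomized ρ X f ω)] with x hx hlim
    obtain ⟨z, hz⟩ := hx
    have h4 : Tendsto (fun R => S R (randomized ρ X f ω) x) atTop (𝓝 z) := by
      refine hz.congr fun R => ?_
      unfold randomized
      rw [S_eq]
    rw [hlim z h4] at h4
    exact h4

end Pool.Agent.Results.MP_ee701d_an.RandomAnnuli
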