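import Pool.Agent.Q87.WR.Conv

/-!
# MP_ee701d_an: spherical partial Fourier sums after random signs on sets of bounded measure

Let `Q_0, Q_1, ...` be a partition of `ℝⁿ` into measurable sets of measure at most `M`, and let
`X_0, X_1, ...` be independent random complex numbers of modulus at most one and mean zero, for
example independent random signs on the unit cubes (the Wiener randomisation). For `f` in
`L²(ℝⁿ)` let `f^ω` be the function whose Fourier transform is `X_k(ω) f^(ξ)` for `ξ` in `Q_k`.

* For every `q > 2` the mean of `∫ (sup_R |S_R f^ω|)^q` over the whole space is at most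
  `C M^(q/2-1) ‖f‖^q`, with a constant `C = C(q)` which does not depend on the dimension, on the
  partition, on the multipliers or on `f`.
* Almost surely, `S_R f^ω(x)` converges to `f^ω(x)` as `R → ∞`, for almost every `x`.

Proof. For fixed radii `a < b` and fixed `x` the partial integral of `f^ω` over `a ≤ |ξ| < b` is a
sum of the independent variables `X_k` with coefficients `c_k(x)`; by Hoeffding's lemma its
`q`-th moment is at most `K (∑ |c_k(x)|²)^(q/2)`. The sum `∑ |c_k(x)|²` is at most `M E`
everywhere and its integral is `E`, where `E` is the energy of `f^` in the annulus. So the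
mean of the `L^q` norm to the power `q` is at most `K M^(q/2-1) E^(q/2)`, with an exponent
`q/2 > 1`. Chaining over the dyadic quantiles of the energy distribution of `f^` over the radii
then loses only a geometric series.
-/

set_option autoImplicit false

open MeasureTheory ProbabilityTheory Filter Metric Topology
open scoped ENNReal RealInnerProductSpace FourierTransform

namespace Pool.Agent.Results.MP_ee701d_an.RandomPieces

universe u

section general

variable {V : Type*} [NormedAddCommGroup V] [InnerProductSpace ℝ V] [FiniteDimensional ℝ V]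
  [MeasurableSpace V] [BorelSpace V]

/-- The spherical partial integral `S_R u`. -/
noncomputable def S (R : ℝ) (u : Lp ℂ 2 (volume : Measure V)) (x : V) : ℂ :=
  ∫ ξ in closedBall (0 : V) R, Real.fourierChar ⟪x, ξ⟫ • (𝓕 u : Lp ℂ 2 (volume : Measure V)) ξ

/-- The maximal function `S^* u`, the supremum over all real `R > 0`. -/
noncomputable def maxS (u : Lp ℂ 2 (volume : Measure V)) (x : V) : ℝ≥0∞ :=
  ⨆ R : Set.Ioi (0 : ℝ), ‖S R u x‖ₑ

/-- A partition of the space into measurable sets `Q_0, Q_1, ...` of measure at most `M`. -/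
structure Pieces (V : Type*) [NormedAddCommGroup V] [InnerProductSpace ℝ V]
    [FiniteDimensional ℝ V] [MeasurableSpace V] [BorelSpace V] (M : ℝ) where
  /-- the sets -/
  Q : ℕ → Set V
  measurable : ∀ k, MeasurableSet (Q k)
  disjoint : ∀ j k, j ≠ k → Disjoint (Q j) (Q k)
  cover : ⋃ k, Q k = Set.univ
  small : ∀ k, volume (Q k) ≤ ENNReal.ofReal M

/-- The closed unit disc. -/
abbrev Disc : Type := closedBall (0 : ℂ) 1

lemma part {M : ℝ} (π : Pieces V M) : Q87.WR.Part π.Q (ENNReal.ofReal M) where
  meas := π.measurable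
  disj := π.disjoint
  cover := fun ξ => by
    have h : ξ ∈ ⋃ k, π.Q k := by rw [π.cover]; exact Set.mem_univ ξ
    exact Set.mem_iUnion.1 h
  vol := π.small

lemma norm_disc (z : Disc) : ‖(z : ℂ)‖ ≤ 1 := by
  have := z.2
  rwa [mem_closedBall_zero_iff] at this

/-- Multiplication by `c_k` on the set `Q_k`, for every `k`. -/
noncomputable def onPieces {M : ℝ} (π : Pieces V M) (c : ℕ → Disc) (g : V → ℂ) (ξ : V) : ℂ :=
  ∑' k, (π.Q k).indicator (fun ξ => (c k : ℂ) * g ξ) ξ

lemma onPieces_memLp {M : ℝ} (π : Pieces V M) (c : ℕ → Disc) (f : Lp ℂ 2 (volume : Measure V)) :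
    MemLp (onPieces π c (𝓕 f : Lp ℂ 2 (volume : Measure V))) 2 :=
  Q87.WR.rq_memLp (part π) (fun k => (c k : ℂ)) (fun k => norm_disc (c k)) (Lp.memLp _)

/-- The function whose Fourier transform is `c_k f^` on the set `Q_k`, for every `k`. -/
noncomputable def multiplied {M : ℝ} (π : Pieces V M) (c : ℕ → Disc)
    (f : Lp ℂ 2 (volume : Measure V)) : Lp ℂ 2 (volume : Measure V) :=
  𝓕⁻ ((onPieces_memLp π c f).toLp _)

/-- Independent random elements `X_0, X_1, ...` of the closed unit disc, with mean zero. -/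
structure Noise {Ω : Type u} [MeasurableSpace Ω] (P : Measure Ω) (X : ℕ → Ω → Disc) : Prop where
  measurable : ∀ k, Measurable (X k)
  independent : iIndepFun X P
  centred : ∀ k, ∫ ω, (X k ω : ℂ) ∂P = 0

lemma noise {Ω : Type u} [MeasurableSpace Ω] {P : Measure Ω} {X : ℕ → Ω → Disc}
    (h : Noise P X) : Q87.RA.Noise P (fun k ω => (X k ω : ℂ)) where
  meas := fun k => measurable_subtype_coe.comp (h.measurable k)
  le := fun k ω => norm_disc (X k ω)
  ind := h.independent.comp (fun _ z => (z : ℂ)) fun _ => measurable_subtype_coe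
  mean := h.centred

lemma S_eq [Nontrivial V] {M : ℝ} (π : Pieces V M) (c : ℕ → Disc)
    (f : Lp ℂ 2 (volume : Measure V)) (R : ℝ) (x : V) : S R (multiplied π c f) x =
      Q87.RA.pc (Q87.WR.rq π.Q (fun k => (c k : ℂ))
        ((𝓕 f : Lp ℂ 2 (volume : Measure V)) : V → ℂ)) 0 R x := by
  have h1 : (𝓕 (multiplied π c f) : Lp ℂ 2 (volume : Measure V)) =
      (onPieces_memLp π c f).toLp _ := by
    unfold multiplied
    exact FourierTransform.fourier_fourierInv_eq _
  unfold S Q87.RA.pc
  rw [h1]
  have h2 : (closedBall (0 : V) R : Set V) =ᵐ[volume] Q87.RA.An V 0 R := by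
    have h3 : Q87.RA.An V 0 R = ball 0 R := by
      ext ξ
      simp [Q87.RA.An]
    rw [h3]
    rcases lt_or_ge R 0 with hR | hR
    · rw [closedBall_eq_empty.2 hR, ball_eq_empty.2 hR.le]
    · rw [← sphere_union_ball]
      have h4 : (sphere (0 : V) R : Set V) =ᵐ[volume] (∅ : Set V) := by
        rw [ae_eq_empty]
        exact Measure.addHaar_sphere _ _ _
      have h5 := h4.union (ae_eq_refl (ball (0 : V) R : Set V))
      rwa [Set.empty_union] at h5
  rw [setIntegral_congr_set h2]
  refine integral_congr_ae (ae_restrict_of_ae ?_)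
  filter_upwards [(onPieces_memLp π c f).coeFn_toLp] with ξ hξ
  rw [hξ, Circle.smul_def, Real.fourierChar_apply, smul_eq_mul]
  unfold Pool.Agent.Q261.ST.ph
  have e : (2 * Real.pi * (⟪x, ξ⟫ - 0 * ‖ξ‖ ^ 2) : ℝ) = 2 * Real.pi * ⟪x, ξ⟫ := by ring
  rw [e]
  rfl

/-- The random function `f^ω`: its Fourier transform is `X_k(ω) f^` on the set `Q_k`. -/
noncomputable def randomized {M : ℝ} {Ω : Type u} (π : Pieces V M) (X : ℕ → Ω → Disc)
    (f : Lp ℂ 2 (volume : Measure V)) (ω : Ω) : Lp ℂ 2 (volume : Measure V) :=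
  multiplied π (fun k => X k ω) f

/-- The spherical partial integrals `S_R u` converge to `u` almost everywhere as `R → ∞`. -/
def Converges (u : Lp ℂ 2 (volume : Measure V)) : Prop :=
  ∀ᵐ x : V, Tendsto (fun R => S R u x) atTop (𝓝 (u x))

end general

/-- `L²(ℝ^n)` -/
abbrev L2 (n : ℕ) : Type := Lp ℂ 2 (volume : Measure (EuclideanSpace ℝ (Fin n)))

/-- The maximal inequality in `L^q`, with the constant `C`. -/
def MaximalInequality (n : ℕ) (q C : ℝ) : Prop :=
  ∀ (M : ℝ), 0 < M → ∀ (π : Pieces (EuclideanSpace ℝ (Fin n)) M)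
    (Ω : Type u) [MeasurableSpace Ω] (P : Measure Ω) [IsProbabilityMeasure P]
    (X : ℕ → Ω → Disc), Noise P X → ∀ f : L2 n,
      ∫⁻ ω, (∫⁻ x, maxS (randomized π X f ω) x ^ q) ∂P ≤
        ENNReal.ofReal (C * M ^ (q / 2 - 1) * ‖f‖ ^ q)

/-- Almost sure convergence almost everywhere, for every `f`. -/
def AlmostSure (n : ℕ) : Prop :=
  ∀ (M : ℝ) (π : Pieces (EuclideanSpace ℝ (Fin n)) M)
    (Ω : Type u) [MeasurableSpace Ω] (P : Measure Ω) [IsProbabilityMeasure P]
    (X : ℕ → Ω → Disc), Noise P X → ∀ f : L2 n, ∀ᵐ ω ∂P, Converges (randomized π X f ω)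

/-- For every `q > 2` the maximal inequality holds with one constant in all dimensions, and
almost surely the spherical partial integrals converge almost everywhere. -/
theorem result :
    (∀ q : ℝ, 2 < q → ∃ C : ℝ, ∀ n : ℕ, 1 ≤ n → MaximalInequality.{u} n q C) ∧
      ∀ n : ℕ, 1 ≤ n → AlmostSure.{u} n := by
  have hnt : ∀ n : ℕ, 1 ≤ n → Nontrivial (EuclideanSpace ℝ (Fin n)) := by
    intro n hn
    have : Nonempty (Fin n) := ⟨⟨0, by omega⟩⟩
    have : Nontrivial (Fin n → ℝ) := Function.nontrivial
    exact (WithLp.equiv 2 (Fin n → ℝ)).nontrivial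
  refine ⟨fun q hq => ⟨(Q87.WR.Cst q).toReal, ?_⟩, ?_⟩
  · intro n hn M hM π Ω _ P _ X hX f
    have := hnt n hn
    have hq0 : 0 < q := by linarith
    obtain ⟨F, -, hF1, hF2⟩ := Q87.WR.max_ineq P (noise hX) (part π)
      (g := ((𝓕 f : L2 n) : EuclideanSpace ℝ (Fin n) → ℂ)) (Lp.memLp _) hq
    rw [Q89.MS.sq_norm f] at hF2
    calc ∫⁻ ω, (∫⁻ x, maxS (randomized π X f ω) x ^ q) ∂P
        ≤ ∫⁻ ω, (∫⁻ x, F (ω, x)) ∂P := by
          refine lintegral_mono fun ω => lintegral_mono fun x => ?_
          have h1 : maxS (randomized π X f ω) x ≤ F (ω, x) ^ (1 / q) := by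
            unfold maxS
            refine iSup_le fun R => ?_
            unfold randomized
            rw [S_eq]
            have h2 := ENNReal.rpow_le_rpow (hF1 ω x R) (by positivity : 0 ≤ 1 / q)
            rwa [← ENNReal.rpow_mul, mul_one_div_cancel hq0.ne', ENNReal.rpow_one] at h2
          have h3 := ENNReal.rpow_le_rpow h1 hq0.le
          rwa [← ENNReal.rpow_mul, one_div_mul_cancel hq0.ne', ENNReal.rpow_one] at h3
      _ ≤ _ := hF2
      _ = _ := by
          rw [ENNReal.ofReal_rpow_of_pos hM, ENNReal.ofReal_rpow_of_nonneg (by positivity)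
            (by positivity), ENNReal.ofReal_mul (by positivity),
            ENNReal.ofReal_mul ENNReal.toReal_nonneg,
            ENNReal.ofReal_toReal (Q87.WR.Cst_ne_top hq)]
          congr 2
          rw [← Real.rpow_natCast, ← Real.rpow_mul (norm_nonneg _)]
          congr 1
          push_cast
          ring
  · intro n hn M π Ω _ P _ X hX f
    have := hnt n hn
    have h := Q87.WR.conv_ae P (noise hX) ENNReal.ofReal_ne_top (part π)
      (g := ((𝓕 f : L2 n) : EuclideanSpace ℝ (Fin n) → ℂ)) (Lp.memLp _)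
    filter_upwards [h] with ω hω
    filter_upwards [hω, Q89.MS.limit_eq (randomized π X f ω)] with x hx hlim
    obtain ⟨z, hz⟩ := hx
    have h4 : Tendsto (fun R => S R (randomized π X f ω) x) atTop (𝓝 z) := by
      refine hz.congr fun R => ?_
      unfold randomized
      rw [S_eq]
    rw [hlim z h4] at h4
    exact h4

end Pool.Agent.Results.MP_ee701d_an.RandomPieces
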