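import Pool.Agent.Q48.RW.Ball
import Pool.Agent.Q48.RW.Conv

/-!
# MP_ee701d_an: spherical partial Fourier sums under small noise in the phases of the annuli

Let `0 = r_0 ≤ r_1 ≤ r_2 ≤ ...` be radii which tend to infinity with gaps at most `L`, let
`0 < σ ≤ 1`, and let `ξ_0, ξ_1, ...` be independent random complex numbers of modulus at most one
with `|E ξ_k| ≤ 1 - σ` for `k ≥ 1`. Put `X_k = ξ_0 ξ_1 ⋯ ξ_k`: only the relative multiplier of two
consecutive annuli is random, it may be arbitrarily close to `1`, and the multipliers of any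
finite number of annuli tend to the same number as `σ → 0`. For `f` in `L²(ℝⁿ)` let `f^ω` be the
function whose Fourier transform is `X_k(ω) f^(ξ)` on the annulus `r_k ≤ |ξ| < r_{k+1}`. Then, for
every `f`, every dimension and all balls `B` of radius `s`,

* the mean of `∫_B (sup_R |S_R f^ω|)²` is at most `C log(2 + s L / σ)² ‖f‖²`, with `C = C(n)`
  independent of the radii, of the multipliers, of `σ`, of `f` and of `B`;
* almost surely, `S_R f^ω(x)` converges to `f^ω(x)` as `R → ∞`, for almost every `x`.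

Here `R` runs over all positive real numbers. Proof: cut the annuli into blocks of `p + 1` annuli
with `(1 - σ)^p ≤ 1/2`. At every point the sums over full blocks are `∑ W_b G_b`, where the pair
(sum `G_b`, multiplier `V_b`) of a block is independent of the past, `W_b = V_0 ⋯ V_{b-1}` and
`|E V_b| ≤ 1/2`; with the expected future sums `A_b = E G_b + E V_b A_{b+1}` they differ from a
martingale by `A_0 - W_b A_b`, and Doob's inequality applies. Inside a block of width
`w ≤ 3 L / σ`, dyadic chaining in the radius costs a factor `log(2 + s w)`.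
-/

set_option autoImplicit false

open MeasureTheory ProbabilityTheory Filter Metric Topology
open scoped ENNReal RealInnerProductSpace FourierTransform

namespace Pool.Agent.Results.MP_ee701d_an.RandomWalkPhases

universe u

section general

variable {V : Type*} [NormedAddCommGroup V] [InnerProductSpace ℝ V] [FiniteDimensional ℝ V]
  [MeasurableSpace V] [BorelSpace V]

/-- The spherical partial integral `S_R u`. -/
noncomputable def S (R : ℝ) (u : Lp ℂ 2 (volume : Measure V)) (x : V) : ℂ :=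
  ∫ ξ in closedBall (0 : V) R, Real.fourierChar ⟪x, ξ⟫ • (𝓕 u : Lp ℂ 2 (volume : Measure V)) ξ

/-- The maximal function `S^* u`, the supremum over all real `R > 0`. -/
noncomputable def maxS (u : Lp ℂ 2 (volume : Measure V)) (x : V) : ℝ≥0∞ :=
  ⨆ R : Set.Ioi (0 : ℝ), ‖S R u x‖ₑ

/-- Radii `0 = r_0 ≤ r_1 ≤ ...` which tend to infinity, with gaps at most `L`. -/
structure Radii (L : ℝ) where
  /-- the radii -/
  r : ℕ → ℝ
  zero : r 0 = 0
  mono : Monotone r
  top : Tendsto r atTop atTop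
  gap : ∀ k, r (k + 1) - r k ≤ L

/-- The annulus `r_k ≤ |ξ| < r_{k+1}`. -/
def annulus (V : Type*) [NormedAddCommGroup V] {L : ℝ} (ρ : Radii L) (k : ℕ) : Set V :=
  {ξ | ρ.r k ≤ ‖ξ‖ ∧ ‖ξ‖ < ρ.r (k + 1)}

/-- The closed unit disc. -/
abbrev Disc : Type := closedBall (0 : ℂ) 1

lemma radii {L : ℝ} (ρ : Radii L) : Q87.RA.Radii ρ.r L := ⟨ρ.zero, ρ.mono, ρ.top, ρ.gap⟩

lemma norm_disc (z : Disc) : ‖(z : ℂ)‖ ≤ 1 := by
  have := z.2
  rwa [mem_closedBall_zero_iff] at this

/-- Multiplication by `c_k` on the `k`-th annulus, for every `k`. -/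
noncomputable def onAnnuli {L : ℝ} (ρ : Radii L) (c : ℕ → Disc) (g : V → ℂ) (ξ : V) : ℂ :=
  ∑' k, (annulus V ρ k).indicator (fun ξ => (c k : ℂ) * g ξ) ξ

lemma onAnnuli_memLp {L : ℝ} (ρ : Radii L) (c : ℕ → Disc) (f : Lp ℂ 2 (volume : Measure V)) :
    MemLp (onAnnuli ρ c (𝓕 f : Lp ℂ 2 (volume : Measure V))) 2 :=
  Q87.RA.rnd_memLp (radii ρ) (fun k => (c k : ℂ)) (fun k => norm_disc (c k)) (Lp.memLp _)

/-- The function whose Fourier transform is `c_k f^` on the `k`-th annulus, for every `k`. -/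
noncomputable def multiplied {L : ℝ} (ρ : Radii L) (c : ℕ → Disc)
    (f : Lp ℂ 2 (volume : Measure V)) : Lp ℂ 2 (volume : Measure V) :=
  𝓕⁻ ((onAnnuli_memLp ρ c f).toLp _)

/-- Independent random elements `ξ_0, ξ_1, ...` of the closed unit disc, such that the modulus of
the mean of `ξ_k` is at most `1 - σ` for `k ≥ 1`. -/
structure Noise {Ω : Type u} [MeasurableSpace Ω] (P : Measure Ω) (ξ : ℕ → Ω → Disc) (σ : ℝ) :
    Prop where
  measurable : ∀ k, Measurable (ξ k)
  independent : iIndepFun ξ P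
  mean : ∀ k, 1 ≤ k → ‖∫ ω, (ξ k ω : ℂ) ∂P‖ ≤ 1 - σ

lemma hyp {Ω : Type u} [MeasurableSpace Ω] {P : Measure Ω} {ξ : ℕ → Ω → Disc} {σ : ℝ}
    (h : Noise P ξ σ) : Q48.RW.Hyp P (fun k ω => (ξ k ω : ℂ)) σ where
  meas := fun k => measurable_subtype_coe.comp (h.measurable k)
  le := fun k ω => norm_disc (ξ k ω)
  ind := h.independent.comp (fun _ z => (z : ℂ)) fun _ => measurable_subtype_coe
  mean := h.mean

/-- The random walk `X_k = ξ_0 ξ_1 ⋯ ξ_k` in the closed unit disc. -/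
noncomputable def walk {Ω : Type u} (ξ : ℕ → Ω → Disc) (k : ℕ) (ω : Ω) : Disc :=
  ⟨∏ j ∈ Finset.range (k + 1), (ξ j ω : ℂ), by
    rw [mem_closedBall_zero_iff, norm_prod]
    exact Finset.prod_le_one (fun _ _ => norm_nonneg _) fun _ _ => norm_disc _⟩

lemma S_eq [Nontrivial V] {L : ℝ} (ρ : Radii L) (c : ℕ → Disc) (f : Lp ℂ 2 (volume : Measure V))
    (R : ℝ) (x : V) : S R (multiplied ρ c f) x =
      Q87.RA.pc (Q87.RA.rnd ρ.r (fun k => (c k : ℂ))
        ((𝓕 f : Lp ℂ 2 (volume : Measure V)) : V → ℂ)) 0 R x := by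
  have h1 : (𝓕 (multiplied ρ c f) : Lp ℂ 2 (volume : Measure V)) =
      (onAnnuli_memLp ρ c f).toLp _ := by
    unfold multiplied
    exact FourierTransform.fourier_fourierInv_eq _
  unfold S Q87.RA.pc
  rw [h1]
  have h2 : (closedBall (0 : V) R : Set V) =ᵐ[volume] Q87.RA.An V 0 R := by
    have h3 : Q87.RA.An V 0 R = ball 0 R := by
      ext ξ
      simp [Q87.RA.An]
    rw [h3]
    rcases lt_or_ge R 0 with hR | hR
    · rw [closedBall_eq_empty.2 hR, ball_eq_empty.2 hR.le]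
    · rw [← sphere_union_ball]
      have h4 : (sphere (0 : V) R : Set V) =ᵐ[volume] (∅ : Set V) := by
        rw [ae_eq_empty]
        exact Measure.addHaar_sphere _ _ _
      have h5 := h4.union (ae_eq_refl (ball (0 : V) R : Set V))
      rwa [Set.empty_union] at h5
  rw [setIntegral_congr_set h2]
  refine integral_congr_ae (ae_restrict_of_ae ?_)
  filter_upwards [(onAnnuli_memLp ρ c f).coeFn_toLp] with ξ hξ
  rw [hξ, Circle.smul_def, Real.fourierChar_apply, smul_eq_mul]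
  unfold Pool.Agent.Q261.ST.ph
  have e : (2 * Real.pi * (⟪x, ξ⟫ - 0 * ‖ξ‖ ^ 2) : ℝ) = 2 * Real.pi * ⟪x, ξ⟫ := by ring
  rw [e]
  rfl

/-- The random function `f^ω`: its Fourier transform is `X_k(ω) f^` on the `k`-th annulus, where
`X_k = ξ_0 ξ_1 ⋯ ξ_k`. -/
noncomputable def randomized {L : ℝ} {Ω : Type u} (ρ : Radii L) (ξ : ℕ → Ω → Disc)
    (f : Lp ℂ 2 (volume : Measure V)) (ω : Ω) : Lp ℂ 2 (volume : Measure V) :=
  multiplied ρ (fun k => walk ξ k ω) f

/-- The integral of `(S^* u)²` over the ball around `x₀` of radius `s`. -/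
noncomputable def energy (x₀ : V) (s : ℝ) (u : Lp ℂ 2 (volume : Measure V)) : ℝ≥0∞ :=
  ∫⁻ x in closedBall x₀ s, maxS u x ^ 2

/-- The spherical partial integrals `S_R u` converge to `u` almost everywhere as `R → ∞`. -/
def Converges (u : Lp ℂ 2 (volume : Measure V)) : Prop :=
  ∀ᵐ x : V, Tendsto (fun R => S R u x) atTop (𝓝 (u x))

end general

/-- `L²(ℝ^n)` -/
abbrev L2 (n : ℕ) : Type := Lp ℂ 2 (volume : Measure (EuclideanSpace ℝ (Fin n)))

/-- The maximal inequality with the constant `C`. -/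
def MaximalInequality (n : ℕ) (C : ℝ) : Prop :=
  ∀ (σ L : ℝ) (ρ : Radii L) (Ω : Type u) [MeasurableSpace Ω] (P : Measure Ω)
    [IsProbabilityMeasure P] (ξ : ℕ → Ω → Disc), 0 < σ → σ ≤ 1 → Noise P ξ σ →
    ∀ (f : L2 n) (x₀ : EuclideanSpace ℝ (Fin n)) (s : ℝ), 0 < s →
      ∫⁻ ω, energy x₀ s (randomized ρ ξ f ω) ∂P ≤
        ENNReal.ofReal (C * Real.log (2 + s * L / σ) ^ 2 * ‖f‖ ^ 2)

/-- Almost sure convergence almost everywhere, for every `f`. -/
def AlmostSure (n : ℕ) : Prop :=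
  ∀ (σ L : ℝ) (ρ : Radii L) (Ω : Type u) [MeasurableSpace Ω] (P : Measure Ω)
    [IsProbabilityMeasure P] (ξ : ℕ → Ω → Disc), 0 < σ → σ ≤ 1 → Noise P ξ σ →
    ∀ f : L2 n, ∀ᵐ ω ∂P, Converges (randomized ρ ξ f ω)

theorem result (n : ℕ) (hn : 1 ≤ n) :
    (∃ C : ℝ, MaximalInequality.{u} n C) ∧ AlmostSure.{u} n := by
  have : Nonempty (Fin n) := ⟨⟨0, by omega⟩⟩
  have : Nontrivial (EuclideanSpace ℝ (Fin n)) := by
    have : Nontrivial (Fin n → ℝ) := Function.nontrivial
    exact (WithLp.equiv 2 (Fin n → ℝ)).nontrivial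
  refine ⟨⟨Real.exp Real.pi * (706 * Q87.RA.C1 (EuclideanSpace ℝ (Fin n))) * 324, ?_⟩, ?_⟩
  · intro σ L ρ Ω _ P _ ξ hσ0 hσ1 hξ f x₀ s hs
    have hL : 0 ≤ L := by
      have h1 := ρ.gap 0
      have h2 := ρ.mono (Nat.zero_le 1)
      linarith
    obtain ⟨p, hp1, hp2⟩ := Q48.RW.exists_p σ hσ0 hσ1
    have ht : 0 ≤ s * L / σ := by positivity
    obtain ⟨m, hm1, hm2⟩ := Q87.RA.exists_m (3 * (s * L / σ)) (by positivity)
    have hm3 : ((p + 1 : ℕ) : ℝ) * (s * L) ≤ 2 ^ m := by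
      refine le_trans ?_ hm1
      calc ((p + 1 : ℕ) : ℝ) * (s * L) ≤ 3 / σ * (s * L) := by gcongr
        _ = _ := by ring
    have hm4 : ((m : ℝ) + 4) ≤ 18 * Real.log (2 + s * L / σ) := by
      refine hm2.trans ?_
      have h1 : Real.log (2 + 3 * (s * L / σ)) ≤ 2 * Real.log (2 + s * L / σ) := by
        rw [show 2 * Real.log (2 + s * L / σ) = Real.log ((2 + s * L / σ) ^ 2) by
          rw [Real.log_pow]; norm_num]
        apply Real.log_le_log (by positivity)
        nlinarith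
      linarith
    have h := Q48.RW.any_ball P (fun k ω => (ξ k ω : ℂ)) σ (hyp hξ) p hp1 (radii ρ)
      (g := ((𝓕 f : L2 n) : EuclideanSpace ℝ (Fin n) → ℂ)) (Lp.stronglyMeasurable _) (Lp.memLp _)
      x₀ s hs m hm3
    rw [Q89.MS.sq_norm f] at h
    calc ∫⁻ ω, energy x₀ s (randomized ρ ξ f ω) ∂P
        ≤ ∫⁻ ω, (∫⁻ x in closedBall x₀ s, Q87.RA.mf (Q87.RA.rnd ρ.r
            (fun k => Q48.RW.X (fun k ω => (ξ k ω : ℂ)) k ω)
            ((𝓕 f : L2 n) : EuclideanSpace ℝ (Fin n) → ℂ)) x ^ 2) ∂P := by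
          refine lintegral_mono fun ω => lintegral_mono fun x => pow_le_pow_left₀ zero_le ?_ 2
          unfold maxS Q87.RA.mf
          refine iSup_le fun R => ?_
          unfold randomized
          rw [S_eq]
          exact le_iSup (fun R : ℝ => ‖Q87.RA.pc (Q87.RA.rnd ρ.r
            (fun k => Q48.RW.X (fun k ω => (ξ k ω : ℂ)) k ω)
            ((𝓕 f : L2 n) : EuclideanSpace ℝ (Fin n) → ℂ)) 0 R x‖ₑ) R
      _ ≤ _ := h
      _ ≤ _ := by
          have hC := Q87.RA.C1_nonneg (V := EuclideanSpace ℝ (Fin n))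
          have hE := Real.exp_pos Real.pi
          rw [← ENNReal.ofReal_mul (by positivity)]
          apply ENNReal.ofReal_le_ofReal
          refine mul_le_mul_of_nonneg_right ?_ (by positivity)
          have h3 : ((m : ℝ) + 4) ^ 2 ≤ (18 * Real.log (2 + s * L / σ)) ^ 2 :=
            pow_le_pow_left₀ (by positivity) hm4 2
          calc Real.exp Real.pi * (706 * Q87.RA.C1 (EuclideanSpace ℝ (Fin n)) * ((m : ℝ) + 4) ^ 2)
              = Real.exp Real.pi * (706 * Q87.RA.C1 (EuclideanSpace ℝ (Fin n))) *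
                ((m : ℝ) + 4) ^ 2 := by ring
            _ ≤ Real.exp Real.pi * (706 * Q87.RA.C1 (EuclideanSpace ℝ (Fin n))) *
                (18 * Real.log (2 + s * L / σ)) ^ 2 := by
                gcongr
            _ = _ := by ring
  · intro σ L ρ Ω _ P _ ξ hσ0 hσ1 hξ f
    obtain ⟨p, hp1, -⟩ := Q48.RW.exists_p σ hσ0 hσ1
    have h := Q48.RW.conv_ae P (fun k ω => (ξ k ω : ℂ)) σ (hyp hξ) p hp1 (radii ρ)
      (g := ((𝓕 f : L2 n) : EuclideanSpace ℝ (Fin n) → ℂ)) (Lp.memLp _)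
    filter_upwards [h] with ω hω
    filter_upwards [hω, Q89.MS.limit_eq (randomized ρ ξ f ω)] with x hx hlim
    obtain ⟨z, hz⟩ := hx
    have h4 : Tendsto (fun R => S R (randomized ρ ξ f ω) x) atTop (𝓝 z) := by
      refine hz.congr fun R => ?_
      unfold randomized
      rw [S_eq]
      rfl
    rw [hlim z h4] at h4
    exact h4

end Pool.Agent.Results.MP_ee701d_an.RandomWalkPhases
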