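import Pool.Agent.Q89.MS.A15

/-!
# MP_ee701d_an: spherical partial Fourier sums on orbits of the free Schrodinger group

For `u ∈ L^2(ℝ^n)` let `S_R u` be the partial Fourier integral over the ball of radius `R`
(`ballSum`), and `S^* u = sup_{R > 0} |S_R u|` (`maxBallSum`). Let `e^{itΔ} f` be the free
Schrodinger flow (`schrodinger`), so that all `e^{itΔ} f` have the same norm as `f`. In every
dimension, for all `f ∈ L^2`:

* for every Frostman measure `μ` of positive dimension on a unit interval of times (for example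
  Lebesgue measure) the mean of `∫_B |S^* (e^{itΔ} f)|^2` over times is at most
  `C (1 + log ρ)^2 ‖f‖^2`, for all balls `B` of radius `ρ ≥ 1`, with `C` independent of `f`, `B`
  and `μ`;
* outside a set of times of Hausdorff dimension zero, `S_R (e^{itΔ} f)` converges to `e^{itΔ} f`
  almost everywhere as `R → ∞`, and `S^* (e^{itΔ} f)` is locally square integrable.

Proof. With a Gaussian weight `w` in space, `∫∫ |∫_A g(ξ) e^{2πi x·ξ - 4π²i t|ξ|²} dξ|² w(x) dx dμ(t)`
is a quadratic form in `g 1_A` with kernel `ŵ(ξ-η) μ̂(|ξ|²-|η|²)`. By Schur's test, the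
Cauchy-Schwarz inequality and an exact Gaussian integral it is at most
`(∫∫ exp(-c 4^j (t-t')²) dμ dμ)^{1/2} ∫_A |g|²` for every set `A` of frequencies `≥ 2^j`. This gains
a power of `2^j` for Frostman measures, which beats the logarithmic losses of the
Rademacher-Menshov chaining over the radii in `[2^j, 2^{j+1}]`. For counting measures of `N` points
in distinct dyadic intervals of length `2^{-j}` it gives a bound for the number of intervals of
times which are bad at level `j`, polynomial in `j` up to an arbitrarily small power of `2^j`. Balls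
of radius `ρ` are treated by scaling.
-/

set_option autoImplicit false
open MeasureTheory Filter
open scoped ENNReal

namespace Pool.Agent.Results.MP_ee701d_an.SchrodingerOrbits

open Q89.MS

/-- `L^2(ℝ^n)` -/
abbrev L2 (n : ℕ) : Type := Lp ℂ 2 (volume : Measure (EuclideanSpace ℝ (Fin n)))

/-- A Frostman measure of dimension `β` on the interval `[a, a + 1]` of times. -/
def IsFrostman (β a : ℝ) (μ : Measure ℝ) : Prop :=
  μ (Set.Icc a (a + 1))ᶜ = 0 ∧
    ∀ s r : ℝ, 0 < r → μ (Set.Icc s (s + r)) ≤ ENNReal.ofReal (r ^ β)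

/-- The maximal inequality along all Schrodinger orbits, on all balls of radius `ρ ≥ 1`. -/
def MaximalBound (n : ℕ) (β C : ℝ) : Prop :=
  ∀ (f : L2 n) (x₀ : EuclideanSpace ℝ (Fin n)) (ρ : ℝ), 1 ≤ ρ →
    ∀ (a : ℝ) (μ : Measure ℝ), IsFrostman β a μ →
      ∫⁻ t, (∫⁻ x in Metric.closedBall x₀ ρ, maxBallSum (schrodinger t f) x ^ 2) ∂μ ≤
        ENNReal.ofReal (C * (1 + Real.log ρ) ^ 2 * ‖f‖ ^ 2)

/-- The partial integrals of `u` over balls converge to `u` almost everywhere, and the maximal
partial integral is square integrable on every ball. -/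
def Converges {n : ℕ} (u : L2 n) : Prop :=
  (∀ᵐ x, Tendsto (fun R => ballSum u R x) atTop (nhds (u x))) ∧
    ∀ ρ : ℝ, ∫⁻ x in Metric.closedBall 0 ρ, maxBallSum u x ^ 2 < ⊤

theorem result (n : ℕ) :
    (∀ β : ℝ, 0 < β → β ≤ 1 → ∃ C : ℝ, MaximalBound n β C) ∧
      ∀ f : L2 n, dimH {t : ℝ | ¬ Converges (schrodinger t f)} = 0 := by
  refine ⟨fun β hβ hβ1 => ?_, fun f => exceptional_times f⟩
  obtain ⟨C, hC⟩ := maximal_ball (V := EuclideanSpace ℝ (Fin n)) β hβ hβ1
  exact ⟨C, fun f x₀ ρ hρ a μ hμ => hC f x₀ ρ hρ a μ hμ.1 hμ.2⟩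

end Pool.Agent.Results.MP_ee701d_an.SchrodingerOrbits
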